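import Mathlib
import Pool.Agent.Y431.D2.LowerBound
import Pool.Agent.Y431.D2.Construct

set_option autoImplicit false

/-!
# The minimum size of graphs of diameter two with a linear degree cap: infinitely many caps for
which there is no limit
-/

namespace Pool.Agent.Results.MP_5980c2_co.EveryPrimePower

open Filter Topology
open Pool.Agent.TH528.DiamTwo (D2 d2_of_ediam ediam_of_d2)
open Pool.Agent.Y431.D2

/-- The sizes (numbers of edges) of the finite simple graphs of order `n` whose diameter is at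
most `d` and all of whose degrees are at most `k`. -/
def sizes (d n : ℕ) (k : ℝ) : Set ℕ :=
  {m | ∃ (V : Type) (_ : Fintype V) (G : SimpleGraph V), Fintype.card V = n ∧
    G.ediam ≤ d ∧ (∀ v, ((G.neighborSet v).ncard : ℝ) ≤ k) ∧ G.edgeSet.ncard = m}

/-- `e_d(n, k)`: the least size of a graph of order `n`, diameter at most `d` and maximum degree
at most `k`. -/
noncomputable def minSize (d n : ℕ) (k : ℝ) : ℕ := sInf (sizes d n k)

lemma mem_sizes {V : Type} [Fintype V] (G : SimpleGraph V) [DecidableRel G.Adj] {n : ℕ} {k : ℝ}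
    (hn : Fintype.card V = n) (h : D2 G) (hdeg : ∀ v, (G.degree v : ℝ) ≤ k) :
    G.edgeFinset.card ∈ sizes 2 n k := by
  refine ⟨V, inferInstance, G, hn, ediam_of_d2 G h, ?_, ?_⟩
  · intro v
    have : (G.neighborSet v).ncard = G.degree v := by
      rw [← G.card_neighborSet_eq_degree, Set.ncard_eq_toFinset_card', Set.toFinset_card]
    rw [this]
    exact hdeg v
  · rw [← SimpleGraph.coe_edgeFinset, Set.ncard_coe_finset]

/-- the degree condition in integers -/
lemma cap_iff (q n d : ℕ) : (d : ℝ) ≤ ((q : ℝ) + 1) / ((q : ℝ) ^ 2 + q + 1) * n ↔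
    (q ^ 2 + q + 1) * d ≤ (q + 1) * n := by
  have h : (0 : ℝ) < (q : ℝ) ^ 2 + q + 1 := by positivity
  rw [div_mul_eq_mul_div, le_div_iff₀ h, ← Nat.cast_le (α := ℝ)]
  push_cast
  rw [mul_comm]

/-- the gap between consecutive caps -/
lemma cap_lt {q p : ℕ} (hp : q < p) :
    (q ^ 2 + q + 1) * (p + 1) + 1 ≤ (q + 1) * (p ^ 2 + p + 1) := by
  obtain ⟨d, rfl⟩ : ∃ d, p = q + 1 + d := ⟨p - (q + 1), by omega⟩
  nlinarith [Nat.zero_le (q * d), Nat.zero_le (q * q), Nat.zero_le (d * d),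
    Nat.zero_le (q * q * d), Nat.zero_le (q * d * d), Nat.zero_le d, Nat.zero_le q]

lemma sizes_nonempty (q : ℕ) : ∀ᶠ n : ℕ in atTop,
    (sizes 2 n (((q : ℝ) + 1) / ((q : ℝ) ^ 2 + q + 1) * n)).Nonempty := by
  classical
  obtain ⟨p, hpq, hp⟩ := Nat.exists_infinite_primes (q + 1)
  obtain ⟨P, _, R, hR⟩ := exists_polar hp.isPrimePow
  set N := q ^ 2 + q + 1 with hN
  set N' := p ^ 2 + p + 1 with hN'
  filter_upwards [eventually_ge_atTop N', eventually_ge_atTop (N * (p + 1) * N')] with n hn1 hn2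
  obtain ⟨lam, hlam⟩ := exists_balanced P (by rw [hR.card]; omega) (n - N')
  rw [hR.card, ← hN'] at hlam
  refine ⟨_, mem_sizes (QG R hR.symm lam) ?_ (QG_d2 hR lam) ?_⟩
  · rw [Fintype.card_sum, hR.card, Fintype.card_fin, ← hN']
    omega
  · intro v
    rw [cap_iff, ← hN]
    have h1 := QG_degree hR lam hlam v
    have hN'pos : 0 < N' := by omega
    have h2 : N' * ((n - N') / N' + 1) ≤ n := by
      have := Nat.mul_div_le (n - N') N'
      have h3 : N' * ((n - N') / N' + 1) = N' * ((n - N') / N') + N' := by ring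
      omega
    have h3 : N' * (N * (QG R hR.symm lam).degree v) ≤ N' * ((q + 1) * n) := by
      calc N' * (N * (QG R hR.symm lam).degree v)
          ≤ N' * (N * ((p + 1) * ((n - N') / N' + 1 + 1))) :=
            Nat.mul_le_mul_left _ (Nat.mul_le_mul_left _ h1)
        _ = N * (p + 1) * (N' * ((n - N') / N' + 1)) + N * (p + 1) * N' := by ring
        _ ≤ N * (p + 1) * n + n := Nat.add_le_add (Nat.mul_le_mul_left _ h2) hn2
        _ = (N * (p + 1) + 1) * n := by ring
        _ ≤ ((q + 1) * N') * n := Nat.mul_le_mul_right _ (cap_lt hpq)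
        _ = N' * ((q + 1) * n) := by ring
    exact Nat.le_of_mul_le_mul_left h3 hN'pos

/-- For `n` divisible by `q ^ 2 + q + 1` the minimum is at most `(q + 1) n`. -/
lemma minSize_le {q : ℕ} (hq : IsPrimePow q) (m : ℕ) :
    minSize 2 ((q ^ 2 + q + 1) * (m + 1)) (((q : ℝ) + 1) / ((q : ℝ) ^ 2 + q + 1) *
      (((q ^ 2 + q + 1) * (m + 1) : ℕ) : ℝ)) ≤ (q + 1) * ((q ^ 2 + q + 1) * (m + 1)) := by
  classical
  obtain ⟨P, _, R, hR⟩ := exists_polar hq
  have hlam : ∀ b : P, (Finset.univ.filter fun i : P × Fin m => i.1 = b).card ≤ m := by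
    intro b
    have : (Finset.univ.filter fun i : P × Fin m => i.1 = b) ⊆ {b} ×ˢ Finset.univ := by
      intro i hi
      simp only [Finset.mem_filter, Finset.mem_univ, true_and] at hi
      rw [Finset.mem_product]
      exact ⟨by simp [hi], Finset.mem_univ _⟩
    have h1 := Finset.card_le_card this
    rw [Finset.card_product] at h1
    simpa using h1
  have hE := QG_edges hR (fun i : P × Fin m => i.1) hlam
  rw [Fintype.card_prod, Fintype.card_fin, hR.card] at hE
  refine (Nat.sInf_le (mem_sizes (QG R hR.symm (fun i : P × Fin m => i.1)) ?_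
    (QG_d2 hR _) ?_)).trans ?_
  · rw [Fintype.card_sum, Fintype.card_prod, hR.card, Fintype.card_fin]
    ring
  · intro v
    rw [cap_iff]
    calc (q ^ 2 + q + 1) * (QG R hR.symm (fun i : P × Fin m => i.1)).degree v
        ≤ (q ^ 2 + q + 1) * ((q + 1) * (m + 1)) :=
          Nat.mul_le_mul_left _ (QG_degree hR _ hlam v)
      _ = _ := by ring
  · have h2 : (q + 1) * ((q ^ 2 + q + 1) * (m + 1) + (q ^ 2 + q + 1) * m) ≤
        2 * ((q + 1) * ((q ^ 2 + q + 1) * (m + 1))) := by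
      rw [mul_left_comm 2]
      apply Nat.mul_le_mul_left
      have : (q ^ 2 + q + 1) * m ≤ (q ^ 2 + q + 1) * (m + 1) := Nat.mul_le_mul_left _ (by omega)
      omega
    omega

/-- An extremal graph. -/
lemma minSize_spec {q n : ℕ}
    (hne : (sizes 2 n (((q : ℝ) + 1) / ((q : ℝ) ^ 2 + q + 1) * n)).Nonempty) :
    ∃ (V : Type) (_ : Fintype V) (_ : DecidableEq V) (G : SimpleGraph V) (_ : DecidableRel G.Adj),
      Fintype.card V = n ∧ D2 G ∧ (∀ v, (q ^ 2 + q + 1) * G.degree v ≤ (q + 1) * n) ∧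
        G.edgeFinset.card = minSize 2 n (((q : ℝ) + 1) / ((q : ℝ) ^ 2 + q + 1) * n) := by
  classical
  obtain ⟨V, hV, G, hn, hdiam, hdeg, hsize⟩ := Nat.sInf_mem hne
  refine ⟨V, hV, inferInstance, G, inferInstance, hn, d2_of_ediam G hdiam, ?_, ?_⟩
  · intro v
    have h1 : (G.neighborSet v).ncard = G.degree v := by
      rw [← G.card_neighborSet_eq_degree, Set.ncard_eq_toFinset_card', Set.toFinset_card]
    have h2 := hdeg v
    rw [h1, cap_iff] at h2
    exact h2
  · rw [minSize, ← hsize, ← SimpleGraph.coe_edgeFinset, Set.ncard_coe_finset]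

/-- For every prime power `q`, with the cap `c = (q + 1) / (q ^ 2 + q + 1)`, graphs of order `n`,
diameter at most two and maximum degree at most `c n` exist for all large `n`; the lower limit of
the sequence `e_2(n, c n) / n` is `q + 1`, its upper limit is at least
`q + 1 + 1 / (2 (q ^ 2 + q + 1))`, and so the sequence has no limit, not even in the extended
reals. -/
theorem result (q : ℕ) (hq : IsPrimePow q) :
    (∀ᶠ n : ℕ in atTop, (sizes 2 n (((q : ℝ) + 1) / ((q : ℝ) ^ 2 + q + 1) * n)).Nonempty) ∧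
      liminf (fun n : ℕ => (((minSize 2 n (((q : ℝ) + 1) / ((q : ℝ) ^ 2 + q + 1) * n) : ℝ) / n
        : ℝ) : EReal)) atTop = (((q : ℝ) + 1 : ℝ) : EReal) ∧
      (((q : ℝ) + 1 + 1 / (2 * ((q : ℝ) ^ 2 + q + 1)) : ℝ) : EReal) ≤
        limsup (fun n : ℕ => (((minSize 2 n (((q : ℝ) + 1) / ((q : ℝ) ^ 2 + q + 1) * n) : ℝ) / n
          : ℝ) : EReal)) atTop ∧
      ¬ ∃ L : EReal, Tendsto (fun n : ℕ =>
        (((minSize 2 n (((q : ℝ) + 1) / ((q : ℝ) ^ 2 + q + 1) * n) : ℝ) / n : ℝ) : EReal))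
          atTop (𝓝 L) := by
  have hq2 : 2 ≤ q := hq.two_le
  have hne := sizes_nonempty q
  set N := q ^ 2 + q + 1 with hN
  have hNpos : 0 < N := by omega
  have hNR : ((N : ℕ) : ℝ) = (q : ℝ) ^ 2 + q + 1 := by rw [hN]; push_cast; ring
  set u : ℕ → ℝ := fun n => (minSize 2 n (((q : ℝ) + 1) / ((q : ℝ) ^ 2 + q + 1) * n) : ℝ) / n
    with hu
  -- lower limit
  have hlow : (((q : ℝ) + 1 : ℝ) : EReal) ≤ liminf (fun n : ℕ => (u n : EReal)) atTop := by
    set C : ℕ := (q + 1) * (2 * (2 * (2 * q + 3) * N) * (q + 2)) with hC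
    have h1 : ∀ᶠ n : ℕ in atTop, (((q : ℝ) + 1 - C / n : ℝ) : EReal) ≤ (u n : EReal) := by
      filter_upwards [hne, eventually_gt_atTop (2 * N * (2 * q + 4))] with n h1 h2
      obtain ⟨V, _, _, G, _, hn, hd2, hdeg, hsize⟩ := minSize_spec h1
      have h3 := weak_lower G hN hn h2 hd2 hdeg
      rw [hsize, ← hC] at h3
      have hn0 : (0 : ℝ) < n := by exact_mod_cast (by omega : 0 < n)
      rw [EReal.coe_le_coe_iff, hu]
      simp only
      rw [le_div_iff₀ hn0, sub_mul, div_mul_cancel₀ _ hn0.ne']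
      have h4 : (((q + 1) * n : ℕ) : ℝ) ≤ ((minSize 2 n (((q : ℝ) + 1) /
        ((q : ℝ) ^ 2 + q + 1) * n) + C : ℕ) : ℝ) := by exact_mod_cast h3
      push_cast at h4
      linarith
    have h2 : Tendsto (fun n : ℕ => (((q : ℝ) + 1 - C / n : ℝ) : EReal)) atTop
        (𝓝 (((q : ℝ) + 1 : ℝ) : EReal)) := by
      rw [EReal.tendsto_coe]
      have := (tendsto_const_nhds (x := (q : ℝ) + 1) (f := (atTop : Filter ℕ))).sub
        (tendsto_const_div_atTop_nhds_zero_nat (C : ℝ))
      simpa using this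
    rw [← h2.liminf_eq]
    exact liminf_le_liminf h1
  have hupp : liminf (fun n : ℕ => (u n : EReal)) atTop ≤ (((q : ℝ) + 1 : ℝ) : EReal) := by
    apply liminf_le_of_frequently_le'
    rw [frequently_atTop]
    intro a
    refine ⟨N * (a + 1), by nlinarith, ?_⟩
    have h1 := minSize_le hq a
    rw [← hN] at h1
    have hn0 : (0 : ℝ) < ((N * (a + 1) : ℕ) : ℝ) := by
      exact_mod_cast Nat.mul_pos hNpos (by omega : 0 < a + 1)
    rw [EReal.coe_le_coe_iff, hu]
    simp only
    rw [div_le_iff₀ hn0]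
    exact_mod_cast h1
  -- upper limit
  have hsup : (((q : ℝ) + 1 + 1 / (2 * ((q : ℝ) ^ 2 + q + 1)) : ℝ) : EReal) ≤
      limsup (fun n : ℕ => (u n : EReal)) atTop := by
    set C : ℕ := N * (2 * q + 3) * (2 * (2 * (2 * q + 3) * N) * (q + 2)) with hC
    have t1 : Tendsto (fun m : ℕ => N * m + q) atTop atTop :=
      tendsto_atTop_mono (fun m => by simp only [id]; nlinarith) tendsto_id
    have h1 : ∀ᶠ m : ℕ in atTop, (((q : ℝ) + 1 + 1 / (2 * N) - C / (2 * N) /
        ((N * m + q : ℕ) : ℝ) : ℝ) : EReal) ≤ (u (N * m + q) : EReal) := by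
      filter_upwards [t1.eventually hne, t1.eventually (eventually_gt_atTop (2 * N * (2 * q + 4)))]
        with m h1 h2
      obtain ⟨V, _, _, G, _, hn, hd2, hdeg, hsize⟩ := minSize_spec h1
      have h3 := lower G hq2 hN hn rfl h2 hd2 hdeg
      rw [hsize, ← hC] at h3
      set n := N * m + q with hnm
      have hn0 : (0 : ℝ) < n := by exact_mod_cast (by omega : 0 < n)
      have hN0 : (0 : ℝ) < N := by exact_mod_cast hNpos
      rw [EReal.coe_le_coe_iff, hu]
      simp only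
      rw [le_div_iff₀ hn0, sub_mul, div_mul_cancel₀ _ hn0.ne']
      have h4 : (((2 * N * (q + 1) + 1) * n : ℕ) : ℝ) ≤ ((2 * N * minSize 2 n (((q : ℝ) + 1) /
        ((q : ℝ) ^ 2 + q + 1) * n) + C : ℕ) : ℝ) := by exact_mod_cast h3
      push_cast at h4
      have h5 : ((q : ℝ) + 1 + 1 / (2 * N)) * n - C / (2 * N) =
          ((2 * N * (q + 1) + 1) * n - C) / (2 * N) := by
        field_simp
      rw [h5, div_le_iff₀ (by positivity)]
      linarith
    have h2 : Tendsto (fun m : ℕ => (((q : ℝ) + 1 + 1 / (2 * N) - C / (2 * N) /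
        ((N * m + q : ℕ) : ℝ) : ℝ) : EReal)) atTop
        (𝓝 (((q : ℝ) + 1 + 1 / (2 * N) : ℝ) : EReal)) := by
      rw [EReal.tendsto_coe]
      have := (tendsto_const_nhds (x := (q : ℝ) + 1 + 1 / (2 * N)) (f := (atTop : Filter ℕ))).sub
        ((tendsto_const_div_atTop_nhds_zero_nat ((C : ℝ) / (2 * N))).comp t1)
      simpa using this
    rw [← hNR, ← h2.limsup_eq]
    calc _ ≤ limsup (fun m : ℕ => (u (N * m + q) : EReal)) atTop := limsup_le_limsup h1
      _ = limsup (fun n : ℕ => (u n : EReal)) (map (fun m : ℕ => N * m + q) atTop) := by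
        rw [← limsup_comp]
        rfl
      _ ≤ _ := limsup_le_limsup_of_le t1
  refine ⟨hne, le_antisymm hupp hlow, hsup, ?_⟩
  rintro ⟨L, hL⟩
  have h1 := hL.liminf_eq
  have h2 := hL.limsup_eq
  have h3 : (((q : ℝ) + 1 + 1 / (2 * ((q : ℝ) ^ 2 + q + 1)) : ℝ) : EReal) ≤
      (((q : ℝ) + 1 : ℝ) : EReal) := by
    calc _ ≤ _ := hsup
      _ = L := h2
      _ = _ := h1.symm
      _ ≤ _ := hupp
  rw [EReal.coe_le_coe_iff] at h3
  have h4 : (0 : ℝ) < 1 / (2 * ((q : ℝ) ^ 2 + q + 1)) := by positivity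
  linarith

end Pool.Agent.Results.MP_5980c2_co.EveryPrimePower
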